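import Pool.Agent.helper37.ND.Spec

/-! # Row nd:GOS (the orbits are large) -/

set_option autoImplicit false

namespace Pool.Agent.ND

open Pool.Agent.helper58.DC Pool.Agent.DI Pool.Agent.GR Pool.Agent.OB Pool.Agent.DR Pool.Agent.FI Pool.Agent.FI3 Pool.Agent.FI4 Pool.Agent.FI4I Pool.Agent.LE Pool.Agent.L5 Pool.Agent.NAB

theorem GOS_dual (A : Type) [CommGroup A] [Finite A] (a : A) (ha : a ≠ 1) : ∃ ν : A →* ℂˣ, ν a ≠ 1 := by
  have : NeZero (Monoid.exponent A) := ⟨Monoid.exponent_ne_zero_of_finite⟩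
  exact CommGroup.exists_apply_ne_one_of_hasEnoughRootsOfUnity A ℂ ha

theorem GOS_dual' (A : Type) [hA : Group A] [IsCyclic A] [Finite A] (a : A) (ha : a ≠ 1) : ∃ ν : A →* ℂˣ, ν a ≠ 1 :=
  @GOS_dual A IsCyclic.commGroup _ a ha

theorem GOS_ne {p : ℕ} {M : Ideal (integralClosure ℤ ℂ)} (hM : Setup p M) {G : Type} [Group G] [Finite G] {K : Subgroup G} {θ : G → ℂ}
    (hθ : θ ∈ IrrOn K) (g : G) (h : ¬ InM M (cc θ (cls K g))) : θ g ≠ 0 := by
  intro h0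
  refine h ?_
  have h1 : cc θ (cls K g) = 0 := by
    unfold cc
    rw [finsum_eq_zero_of_forall_eq_zero, zero_div]
    intro y
    by_cases hy : cls K g y = 0
    · rw [hy, zero_mul]
    · obtain ⟨l, hl, rfl⟩ := cls_ne hy
      rw [IrrOn_conj hθ hl, h0, mul_zero]
  rw [h1]
  exact InM.zero hM

theorem GOS (hZGP : ZGP_stmt) (hZLM : ZLM_stmt) (hGST : GST_stmt) (hCLS : CLS_stmt) : GOS_stmt := by
  intro p e m t M hM G _ _ χ Z z x hZ θ hθ
  have hem := hZ.em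
  have hfin : Finite {θ' : G → ℂ // orb Z t θ θ'} := by
    refine ((IrrOn_fin (cz Z)).subset ?_).to_subtype
    rintro θ' ⟨ν, rfl⟩
    exact (hGST p e m t M hM G χ Z z x hZ θ hθ ν).1.1
  have hval : ∀ z' x' : G, Ucl p e m M (cz Z) θ z' x' → Zg p e m z' = Z → θ (z' * x') ≠ 0 ∧ (z' * x') ^ t = z' ^ p ^ (e - 3) := by
    intro z' x' hu _
    refine ⟨GOS_ne hM hθ.1 _ hu.ne, ?_⟩
    have hc : Commute z' x' := hu.co
    rw [hc.mul_pow, hZ.tx.pe z' hu.pe, hZ.tx.re x' hu.re, mul_one]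
  refine ⟨?_, hfin, hval⟩
  obtain ⟨z', x', hu, hzz⟩ := hθ.2.2
  obtain ⟨hne, hpow⟩ := hval z' x' hu hzz
  obtain ⟨-, -, -, -, -, -, ⟨hy1, hy2⟩, -⟩ := hZGP p e m hM.pr (by omega) G z' hu.pe hu.od
  rw [hzz] at hy1
  have hcyc : IsCyclic Z := by
    rw [← hzz]
    unfold Zg
    infer_instance
  have hp := hM.pr
  have : Fact p.Prime := ⟨hp⟩
  obtain ⟨ν, hν⟩ : ∃ ν : Z →* ℂˣ, ν ((⟨z' ^ p ^ (e - 3), hy1⟩ : Z) ^ p ^ 2) ≠ 1 := by
    refine GOS_dual' Z _ ?_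
    intro h
    have h1 := congrArg Subtype.val h
    rw [SubgroupClass.coe_pow] at h1
    have h2 : (z' ^ p ^ (e - 3)) ^ p ^ 2 = 1 := h1
    have h3 := orderOf_dvd_of_pow_eq_one h2
    rw [hy2] at h3
    have h4 := Nat.le_of_dvd (pow_pos hp.pos 2) h3
    have h5 : p ^ 2 < p ^ 3 := Nat.pow_lt_pow_right hp.one_lt (by norm_num)
    omega
  have hord : orderOf (ν (⟨z' ^ p ^ (e - 3), hy1⟩ : Z)) = p ^ 3 := by
    refine orderOf_eq_prime_pow (n := 2) ?_ ?_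
    · rw [← map_pow]; exact hν
    · rw [← map_pow]
      have h1 : (⟨z' ^ p ^ (e - 3), hy1⟩ : Z) ^ p ^ (2 + 1) = 1 := by
        apply Subtype.ext
        show (z' ^ p ^ (e - 3)) ^ p ^ 3 = 1
        rw [← hy2]
        exact pow_orderOf_eq_one _
      rw [h1, map_one]
  have hlam : ∀ μ : Z →* ℂˣ, lam Z t μ (z' * x') = ((μ (⟨z' ^ p ^ (e - 3), hy1⟩ : Z) : ℂˣ) : ℂ) := by
    intro μ
    unfold lam
    have h1 : (z' * x') ^ t ∈ Z := by rw [hpow]; exact hy1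
    rw [dif_pos h1]
    have h2 : (⟨(z' * x') ^ t, h1⟩ : Z) = ⟨z' ^ p ^ (e - 3), hy1⟩ := Subtype.ext hpow
    rw [h2]
  have hcard := Nat.card_le_card_of_injective (fun i : Fin (p ^ 3) => (⟨st Z t (ν ^ (i : ℕ)) θ, ν ^ (i : ℕ), rfl⟩ : {θ' : G → ℂ // orb Z t θ θ'})) (by
    intro i j hij
    have h1 : st Z t (ν ^ (i : ℕ)) θ = st Z t (ν ^ (j : ℕ)) θ := congrArg Subtype.val hij
    have h2 := congrFun h1 (z' * x')
    unfold st at h2
    rw [hlam, hlam] at h2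
    have h3 := mul_right_cancel₀ hne h2
    have h4 := Units.ext h3
    rw [MonoidHom.pow_apply, MonoidHom.pow_apply] at h4
    have h5 := pow_injOn_Iio_orderOf (x := ν (⟨z' ^ p ^ (e - 3), hy1⟩ : Z)) (by rw [hord]; exact i.2) (by rw [hord]; exact j.2) h4
    exact Fin.ext h5)
  rwa [Nat.card_eq_fintype_card, Fintype.card_fin] at hcard

end Pool.Agent.ND
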