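import Pool.Agent.helper37.ND.Spec

/-! # Row nd:GC1 (the structure of `GS C₁`) -/

set_option autoImplicit false

namespace Pool.Agent.ND

open Pool.Agent.helper58.DC Pool.Agent.DI Pool.Agent.GR Pool.Agent.OB Pool.Agent.DR Pool.Agent.FI Pool.Agent.FI3 Pool.Agent.FI4 Pool.Agent.FI4I Pool.Agent.LE Pool.Agent.L5 Pool.Agent.NAB

open Classical in
theorem GC1 (hKC1 : KC1_stmt) (hGAC : GAC_stmt) (hGSY : GSY_stmt) (hZGP : ZGP_stmt) : GC1_stmt := by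
  intro p e m t M hM G _ _ χ Z z x hZ
  obtain ⟨-, -, -, -, ⟨-, hc2, -, hc4, -⟩, -⟩ := hZGP p e m hM.pr (by have := hZ.em; omega) G z hZ.uc.pe hZ.uc.od
  rw [hZ.zz] at hc2 hc4
  have hle : cz Z ≤ nz Z ⊓ cz (Eg p e z) := le_inf hc2 hc4
  obtain ⟨act, hact, -, h1⟩ := hGAC p e m t M hM G χ Z z x hZ (nz Z ⊓ cz (Eg p e z)) inf_le_left hle
  obtain ⟨hAcn, hst⟩ := h1 inf_le_right
  obtain ⟨w, D, hD, hSys⟩ := hGSY p e m t M hM G χ Z z x hZ (cz (Eg p e z)) (nz Z ⊓ cz (Eg p e z)) hc4 rfl act hact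
  have hf1 : Finite (XX p e m M χ Z) := ((IrrOn_fin (cz Z)).subset fun θ hθ => hθ.1).to_subtype
  have hf2 : Finite (PP p e m M χ (cz (Eg p e z)) Z) := ((IrrOn_fin (cz (Eg p e z))).subset fun θ hθ => hθ.1).to_subtype
  obtain ⟨ξ, ε, hε, hDξ, hξ⟩ := hKC1 (XX p e m M χ Z) (nz Z ⊓ cz (Eg p e z) : Subgroup G) ((cz Z).subgroupOf (nz Z ⊓ cz (Eg p e z))) act
    (fun θ θ' => orb Z t (θ : G → ℂ) (θ' : G → ℂ)) 1 hAcn le_rfl hst (PP p e m M χ (cz (Eg p e z)) Z) w D hSys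
  refine ⟨fun θ => if h : θ ∈ GS p e m M χ (cz Z) Z then (ξ ⟨θ, h⟩ : G → ℂ) else 0,
    fun θ => if h : θ ∈ GS p e m M χ (cz Z) Z then ((ε ⟨θ, h⟩ : ℤ) : ℂ) else 0, ?_, ?_, ?_⟩
  · intro θ hθ
    simp only [dif_pos hθ]
    refine ⟨(ξ ⟨θ, hθ⟩).2, ?_⟩
    rcases hε ⟨θ, hθ⟩ with h | h
    · left; rw [h]; norm_num
    · right; rw [h]; norm_num
  · intro ψ hψ θ hθ θ' hθ' ho
    simp only [dif_pos hθ, dif_pos hθ']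
    have h2 := hD ⟨ψ, hψ⟩ ⟨θ, hθ⟩ ⟨θ', hθ'⟩
    rw [if_pos ho, hDξ ⟨ψ, hψ⟩ ⟨θ, hθ⟩ ⟨θ', hθ'⟩ ho] at h2
    rw [← h2]
    have h3 : ∀ y : XX p e m M χ Z, (if ψ = (ξ y : G → ℂ) then (1 : ℂ) else 0) = (((if (⟨ψ, hψ⟩ : PP p e m M χ (cz (Eg p e z)) Z) = ξ y then (1 : ℤ) else 0) : ℤ) : ℂ) := by
      intro y
      by_cases hy : ψ = (ξ y : G → ℂ)
      · rw [if_pos hy, if_pos (Subtype.ext hy)]; norm_num
      · rw [if_neg hy, if_neg (fun h => hy (congrArg Subtype.val h))]; norm_num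
    rw [h3, h3]
    push_cast
    rfl
  · intro θ hθ θ' hθ' h
    simp only [dif_pos hθ, dif_pos hθ'] at h
    obtain ⟨a, ha⟩ := hξ ⟨θ, hθ⟩ ⟨θ', hθ'⟩ (Subtype.ext h)
    refine ⟨a, a.2, ?_⟩
    rw [← hact a ⟨θ, hθ⟩, ← ha]

end Pool.Agent.ND
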